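import Pool.Agent.H4.UL6
import Pool.Agent.H21.Ten3
import Pool.Agent.H11.GDefs

set_option autoImplicit false

namespace Pool.Agent.Results.MP_0f8b55_lc.Hard

open Pool.Agent.H11.PT Pool.Agent.H21.ER Pool.Agent.H4.UL RealInnerProductSpace

def tm (h : H3) : List ℕ := [0, 1, h.1.1 + 1, h.1.2 + 1, h.2.1.1 + 1, h.2.1.2 + 1, h.2.2.1 + 1, h.2.2.2 + 1]

def vx (D m : ℕ) (h : H3 × ℕ) (c : Bool × ℕ) : ℕ := bif c.1 then (tm h.1).getD c.2 0 else D + 1 + (h.2 * m + c.2)

def red (m : ℕ) (L : List ((Bool × ℕ) × Bool × ℕ)) (D : ℕ) (H : List H3) : ℕ × List (ℕ × ℕ) :=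
  (D + 1 + H.length * m, H.zipIdx.flatMap fun h => L.map fun e => (vx D m h e.1, vx D m h e.2))

variable {d n D m : ℕ} {H : List H3} {L : List ((Bool × ℕ) × Bool × ℕ)}

lemma tm_lt (hb : Bd D H) {h : H3} (hh : h ∈ H) (j : ℕ) : (tm h).getD j 0 < D + 1 := by
  have := hb h hh
  rcases j with _ | _ | _ | _ | _ | _ | _ | _ | j <;> simp [tm] <;> omega

lemma hz (h : H3 × ℕ) (hh : h ∈ H.zipIdx) : h.1 ∈ H ∧ h.2 < H.length ∧ H.getD h.2 default = h.1 := by
  rw [List.mem_zipIdx_iff_getElem?, List.getElem?_eq_some_iff] at hh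
  obtain ⟨a, b⟩ := hh
  exact ⟨b ▸ List.getElem_mem a, a, by rw [List.getD_eq_getElem _ _ a, b]⟩

lemma seq {X : Type} [Inhabited X] {R : ℕ → (ℕ → X) → Prop} {F0 : Set X} (h0 : F0.Finite) (N : ℕ)
    (h : ∀ i < N, ∀ F : Set X, F.Finite → ∃ q, R i q ∧ (∀ i < m, ∀ j < m, q i = q j → i = j) ∧ ∀ j < m, q j ∉ F) :
    ∃ Q : ℕ → ℕ → X, (∀ i < N, R i (Q i) ∧ ∀ j < m, Q i j ∉ F0) ∧
      ∀ i < N, ∀ j < m, ∀ i' < N, ∀ j' < m, Q i j = Q i' j' → i = i' ∧ j = j' := by
  induction N with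
  | zero => exact ⟨default, by simp, by simp⟩
  | succ N ih =>
    obtain ⟨Q, a, b⟩ := ih fun i hi => h i (by omega)
    obtain ⟨q, c1, c2, c3⟩ := h N (by omega) _ (h0.union (((Set.finite_lt_nat N).prod
      (Set.finite_lt_nat m)).image fun x => Q x.1 x.2))
    refine ⟨Function.update Q N q, fun i hi => ?_, fun i hi j hj i' hi' j' hj' e => ?_⟩
    · rcases (Nat.lt_succ_iff.1 hi).eq_or_lt with rfl | hi
      · rw [Function.update_self]
        exact ⟨c1, fun j hj e => c3 j hj (.inl e)⟩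
      · rw [Function.update_of_ne hi.ne]
        exact a i hi
    · rcases (Nat.lt_succ_iff.1 hi).eq_or_lt with rfl | hi <;>
        rcases (Nat.lt_succ_iff.1 hi').eq_or_lt with h' | hi'
      · subst h'
        rw [Function.update_self] at e
        exact ⟨rfl, c2 _ hj _ hj' e⟩
      · rw [Function.update_self, Function.update_of_ne hi'.ne] at e
        exact (c3 j hj (.inr ⟨(i', j'), ⟨hi', hj'⟩, e.symm⟩)).elim
      · subst h'
        rw [Function.update_self, Function.update_of_ne hi.ne] at e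
        exact (c3 j' hj' (.inr ⟨(i, j), ⟨hi, hj⟩, e⟩)).elim
      · rw [Function.update_of_ne hi'.ne, Function.update_of_ne hi.ne] at e
        exact b _ hi _ hj _ hi' _ hj' e

lemma pts {x : ℕ → ℝ} (x0 : x 0 ≠ 0) (hs : ∀ i < D, |x i| ≤ |x 0|) : ∃ P0 : ℕ → V (n + 3),
    Function.Injective P0 ∧ P0 0 = 0 ∧ P0 1 = ev n ∧ (∀ v < D + 1, ‖P0 v‖ ≤ uu (n + 3)) ∧
    ∀ v, P0 (v + 1) 0 = vv n * (x v / x 0) := by
  have hv := vv_pos (n := n)
  let w : V (n + 3) := EuclideanSpace.single (Fin.succ 0) 1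
  let P : ℕ → V (n + 3) := fun v => (x v / x 0) • ev n + (v / (D + 1) * vv n) • w
  have p0 : P 0 = ev n := by simp [P, x0]
  have p1 : ∀ v, P v (Fin.succ 0) = v / (D + 1) * vv n := fun v => by simp [P, w, ev]
  have p2 : Function.Injective P := fun a b e => by
    have := (p1 a).symm.trans ((congrArg (fun y : V (n + 3) => y (Fin.succ 0)) e).trans (p1 b))
    field_simp at this
    exact_mod_cast this
  have p3 : ∀ v, P v ≠ 0 := fun v e => by
    have := p1 v
    rw [e, PiLp.zero_apply] at this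
    field_simp at this
    obtain rfl : v = 0 := by simpa [hv.ne'] using this.symm
    rw [p0] at e
    simpa [e] using (ev_norm (n := n)).trans_gt hv
  refine ⟨fun v => Nat.casesOn v 0 P, ?_, rfl, p0, ?_, fun v => by simp [P, w, ev, mul_comm]⟩
  · rintro (_ | a) (_ | b) e
    · rfl
    · exact (p3 _ e.symm).elim
    · exact (p3 _ e).elim
    · rw [p2 e]
  · rintro (_ | v) h
    · simpa using (uu_pos (d := n + 3) (by omega)).le
    · have := norm_add_le ((x v / x 0) • ev n) ((v / (D + 1) * vv n) • w)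
      have h1 : |x v / x 0| ≤ 1 := by
        rw [abs_div, div_le_one (abs_pos.2 x0)]; exact hs v (by omega)
      have h2 : (v / (D + 1) : ℝ) ≤ 1 := by
        rw [div_le_one (by positivity)]; exact_mod_cast (by omega : v ≤ D + 1)
      rw [norm_smul, norm_smul, ev_norm, show ‖w‖ = 1 by simp [w], Real.norm_eq_abs,
        Real.norm_of_nonneg (by positivity)] at this
      rw [uu_vv]
      show ‖P v‖ ≤ _
      nlinarith

lemma compl (hb : Bd D H) (h1 : ∀ e ∈ L, e.1.2 < (bif e.1.1 then 8 else m) ∧ e.2.2 < (bif e.2.1 then 8 else m) ∧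
      e.1 ≠ e.2 ∧ (e.1.1 && e.2.1) = false)
    (h3 : ∀ T : ℕ → V (n + 3), (MC' fun t : Fin 8 => T t) → ∀ F : Set (V (n + 3)), F.Finite → ∃ q : ℕ → V (n + 3),
      Rl L (fun c => bif c.1 then T c.2 else q c.2) ∧ (∀ i < m, ∀ j < m, q i = q j → i = j) ∧ ∀ j < m, q j ∉ F)
    {x : ℕ → ℝ} (x0 : x 0 ≠ 0) (hx : ∀ h ∈ H, h.q x = 0) (hs : ∀ i < D, |x i| ≤ |x 0|) :
    ∃ P : ℕ → V (n + 3), Rl (red m L D H).2 P ∧
      ∀ a < (red m L D H).1, ∀ b < (red m L D H).1, P a = P b → a = b := by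
  obtain ⟨P0, i0, i1, i2, i3, i4⟩ := pts (n := n) x0 hs
  obtain ⟨q, hq, hq'⟩ := seq (m := m) (R := fun i q => Rl L fun c => bif c.1 then
      P0 ((tm (H.getD i default)).getD c.2 0) else q c.2) ((Set.finite_lt_nat (D + 1)).image P0) H.length
      fun i hi => by
    have hh : H.getD i default ∈ H := by rw [List.getD_eq_getElem _ _ hi]; exact List.getElem_mem hi
    generalize H.getD i default = h at hh
    refine h3 (fun t => P0 ((tm h).getD t 0)) ⟨i1, i2, fun i => i3 _ (tm_lt hb hh i), fun t =>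
      if (tm h).getD t 0 = 0 then 0 else x ((tm h).getD t 0 - 1) / x 0, fun i => ?_, fun i => ?_, ?_⟩
    · beta_reduce
      split_ifs with h0
      · simp
      · rw [abs_div, div_le_one (abs_pos.2 x0)]
        exact hs _ (by have := tm_lt hb hh i; omega)
    · beta_reduce
      generalize (tm h).getD i 0 = v
      cases v with
      | zero => simp [i1]
      | succ v => simp [i4]
    · have := hx h hh
      simp only [H3.q, H21.ER.mv] at this
      simp [tm]
      field_simp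
      linear_combination this
  obtain ⟨P, hP0⟩ : ∃ P : ℕ → V (n + 3), ∀ v, P v = if v < D + 1 then P0 v else
    q ((v - (D + 1)) / m) ((v - (D + 1)) % m) := ⟨_, fun _ => rfl⟩
  have hP : ∀ h ∈ H.zipIdx, ∀ c : Bool × ℕ, c.2 < (bif c.1 then 8 else m) →
      P (vx D m h c) = bif c.1 then P0 ((tm h.1).getD c.2 0) else q h.2 c.2 := by
    rintro h hh ⟨_ | _, j⟩ hj
    · simp only [cond_false] at hj
      simp only [vx, cond_false, hP0, if_neg (Nat.le_add_right _ _).not_gt, Nat.add_sub_cancel_left,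
        Nat.mul_add_mod_self_right, Nat.mod_eq_of_lt hj]
      rw [add_comm (h.2 * m), Nat.add_mul_div_right _ _ (by omega), Nat.div_eq_of_lt hj, zero_add]
    · have := tm_lt hb (hz h hh).1 j
      simp only [vx, cond_true, hP0]
      rw [if_pos (by omega)]
  refine ⟨P, ?_, fun a ha b hb e => ?_⟩
  · simp only [Rl, red, List.forall_mem_flatMap, List.forall_mem_map]
    intro h hh e he
    rw [hP h hh _ (h1 e he).1, hP h hh _ (h1 e he).2.1, ← (hz h hh).2.2]
    exact (hq _ (hz h hh).2.1).1 e he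
  · have t : ∀ a < (red m L D H).1, ¬ a < D + 1 → (a - (D + 1)) / m < H.length ∧ (a - (D + 1)) % m < m :=
      fun a ha h => by
        simp only [red] at ha
        have hm : 0 < m := Nat.pos_of_ne_zero (by rintro rfl; omega)
        exact ⟨(Nat.div_lt_iff_lt_mul hm).2 (by omega), Nat.mod_lt _ hm⟩
    rw [hP0, hP0] at e
    split_ifs at e with u1 u2 u2
    · exact i0 e
    · exact ((hq _ (t b hb u2).1).2 _ (t b hb u2).2 ⟨a, u1, e⟩).elim
    · exact ((hq _ (t a ha u1).1).2 _ (t a ha u1).2 ⟨b, u2, e.symm⟩).elim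
    · obtain ⟨s1, s2⟩ := hq' _ (t a ha u1).1 _ (t a ha u1).2 _ (t b hb u2).1 _ (t b hb u2).2 e
      have s3 := Nat.div_add_mod (a - (D + 1)) m
      rw [s1, s2, Nat.div_add_mod] at s3
      omega

lemma wf (hb : Bd D H) (h1 : ∀ e ∈ L, e.1.2 < (bif e.1.1 then 8 else m) ∧ e.2.2 < (bif e.2.1 then 8 else m) ∧
      e.1 ≠ e.2 ∧ (e.1.1 && e.2.1) = false) :
    ∀ e ∈ (red m L D H).2, e.1 < (red m L D H).1 ∧ e.2 < (red m L D H).1 ∧ e.1 ≠ e.2 := by
  simp only [red, List.forall_mem_flatMap, List.forall_mem_map]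
  intro h hh e he
  have := Nat.mul_le_mul_right m (hz h hh).2.1
  have t1 := tm_lt hb (hz h hh).1 e.1.2
  have t2 := tm_lt hb (hz h hh).1 e.2.2
  obtain ⟨a1, a2, a3, a4⟩ := h1 e he
  rcases e with ⟨⟨_ | _, i⟩, _ | _, j⟩ <;>
    simp only [vx, cond_true, cond_false, ne_eq, Prod.mk.injEq, true_and, Bool.and_self,
      Bool.true_eq_false, Nat.succ_mul] at * <;> omega

lemma sound (h2 : ∀ T q : ℕ → V d, Rl L (fun c => bif c.1 then T c.2 else q c.2) → MS fun t : Fin 8 => T t)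
    (hH : H ≠ []) {P : ℕ → V d} (hP : Rl (red m L D H).2 P) : ∃ x, x 0 ≠ 0 ∧ FF H x = 0 := by
  simp only [Rl, red, List.forall_mem_flatMap, List.forall_mem_map] at hP
  have h' : ∀ h ∈ H, MS fun t : Fin 8 => P ((tm h).getD t 0) := fun h hh => by
    obtain ⟨i, hi, rfl⟩ := List.getElem_of_mem hh
    refine h2 (fun t => P ((tm H[i]).getD t 0)) (fun j => P (D + 1 + (i * m + j))) fun e he => ?_
    have e1 : ∀ c : Bool × ℕ, (bif c.1 then P ((tm H[i]).getD c.2 0) else P (D + 1 + (i * m + c.2))) =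
        P (vx D m (H[i], i) c) := by rintro ⟨_ | _, j⟩ <;> rfl
    simp only [e1]
    exact hP _ (by simp [List.mem_zipIdx_iff_getElem?]) e he
  refine ⟨fun i => ⟪P (i + 1) - P 0, P 1 - P 0⟫, ?_, FF_zero.2 fun h hh => (h' h hh).2⟩
  obtain ⟨h, hh⟩ := List.exists_mem_of_ne_nil _ hH
  exact inner_self_ne_zero.2 (h' h hh).1

lemma emb {e : ℕ} (h : e ≤ d) : ∃ f : V e → V d, ∀ a b, dist (f a) (f b) = dist a b := by
  obtain ⟨k, rfl⟩ := Nat.exists_eq_add_of_le h
  refine ⟨fun a => WithLp.toLp 2 (Fin.append (fun i => a i) 0), fun a b => ?_⟩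
  simp [EuclideanSpace.dist_eq, Fin.sum_univ_add]

theorem result (d : ℕ) (hd : 3 ≤ d) : ∃ f : Qf → ℕ × List (ℕ × ℕ), PolyTime bits bits f ∧ ∀ φ,
    (ETR φ ↔ ∃ e ≤ d, ∃ p : Fin (f φ).1 → EuclideanSpace ℝ (Fin e), Function.Injective p ∧
      ∀ u v, (gr (f φ).1 (f φ).2).Adj u v → dist (p u) (p v) = 1) := by
  obtain ⟨n, rfl⟩ : ∃ n, d = n + 3 := ⟨d - 3, by omega⟩
  have hu := vv_pos (n := n)
  have hu' := uu_le hd
  have huv := uu_vv (n := n)
  obtain ⟨m, L, h1, h2, h3⟩ := (masterK (n := n)).num ⟨fun i => (if i = 1 then 1 else 0 : ℝ) • ev n,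
    ⟨by simp, by simp, fun i => by beta_reduce; split_ifs <;> simp [ev_norm] <;> linarith,
      fun i => if i = 1 then 1 else 0, fun i => by beta_reduce; split_ifs <;> simp,
      fun i => by beta_reduce; split_ifs <;> simp [ev], by simp⟩,
    fun a b => by beta_reduce; split_ifs <;> simp [ev_norm] <;> linarith⟩
  refine ⟨fun φ => red m L (DD φ) (HH φ), PT.polyTime (by unfold red vx tm; fun_prop), fun φ => ?_⟩
  have w := wf (HH_bd φ) h1
  have c := fun x x0 hx hs => compl (x := x) (HH_bd φ) h1 h3 x0 hx hs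
  have s := fun P hP => sound (D := DD φ) (m := m) (P := P) h2 (HH_ne φ) hP
  beta_reduce
  generalize (red m L (DD φ) (HH φ)).1 = N, (red m L (DD φ) (HH φ)).2 = E at w c s ⊢
  rw [HH_iff]
  refine ⟨fun ⟨x, x0, hx⟩ => ?_, fun ⟨e, he, p, _, hp⟩ => ?_⟩
  · obtain ⟨P, hP, hi⟩ := c x x0 (FF_zero.1 hx) fun i hi => by
      have := HH_slack φ hi x
      rwa [hx, Real.sqrt_zero, add_zero, sq_le_sq] at this
    refine ⟨_, le_rfl, fun v => P v, fun a b e => Fin.ext (hi _ a.2 _ b.2 e), fun u v h => ?_⟩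
    rcases ((SimpleGraph.fromRel_adj _ _ _).1 h).2 with h | h
    · exact hP (u, v) h
    · exact (dist_comm _ _).trans (hP (v, u) h)
  · obtain ⟨f, hf⟩ := emb he
    refine s (fun v => if h : v < N then f (p ⟨v, h⟩) else 0) fun e he => ?_
    obtain ⟨a, b, c⟩ := w e he
    simp only [dif_pos a, dif_pos b, hf]
    exact hp _ _ ((SimpleGraph.fromRel_adj _ _ _).2 ⟨fun h' => c (congrArg Fin.val h'), .inl he⟩)

end Pool.Agent.Results.MP_0f8b55_lc.Hard
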